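import Pool.Agent.Y720.PAC.Poly

/-!
# The absolute Galois group of a field without new squares of integers (helper720)
-/

set_option autoImplicit false

namespace Pool.Agent.Y720.PAC

/-- a product of two different prime numbers is not a square -/
lemma not_sq {p q : ℕ} (hp : p.Prime) (hq : q.Prime) (h : p ≠ q) :
    ¬ IsSquare ((p * q : ℕ) : ℤ) := by
  rintro ⟨r, hr⟩
  have h1 : p * q = r.natAbs * r.natAbs := by
    have := congrArg Int.natAbs hr
    rwa [Int.natAbs_natCast, Int.natAbs_mul] at this
  have h2 : p ∣ r.natAbs := by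
    have : p ∣ r.natAbs * r.natAbs := ⟨q, h1.symm⟩
    rcases hp.dvd_mul.1 this with h | h <;> exact h
  obtain ⟨s, hs⟩ := h2
  rw [hs] at h1
  have h3 : q = p * (s * s) := by
    apply Nat.eq_of_mul_eq_mul_left hp.pos
    rw [h1]
    ring
  have h4 : p ∣ q := ⟨_, h3⟩
  exact h ((Nat.prime_dvd_prime_iff_eq hp hq).1 h4)

/-- **the absolute Galois group is not topologically finitely generated** -/
theorem not_fg {K : Type} [Field K] (hK : Good K) (N : Type) [Field N] [Algebra K N]
    [IsGalois K N] (hN : ∀ p : ℕ, ∃ s : N, s * s = (p : N))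
    (S : Set (N ≃ₐ[K] N)) (hS : S.Finite) :
    (Subgroup.closure S).topologicalClosure ≠ ⊤ := by
  classical
  intro htop
  choose s hs using hN
  have : CharZero K := hK.char
  have : CharZero N := charZero_of_injective_algebraMap (algebraMap K N).injective
  have hsgn : ∀ (g : N ≃ₐ[K] N) (p : ℕ), g (s p) = s p ∨ g (s p) = - s p := by
    intro g p
    apply mul_self_eq_mul_self_iff.1
    rw [← map_mul, hs, map_natCast]
  have : Finite S := hS
  -- two primes with the same signs
  obtain ⟨p, q, hpq, hsame⟩ : ∃ p q : Nat.Primes, p ≠ q ∧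
      (fun g : S => (g.1 (s p) = s p : Prop)) = fun g : S => (g.1 (s q) = s q : Prop) :=
    Finite.exists_ne_map_eq_of_infinite fun p : Nat.Primes => fun g : S => (g.1 (s p) = s p : Prop)
  set t : N := s p * s q with ht
  have hSt : ∀ g ∈ S, g t = t := by
    intro g hg
    have h1 : (g (s p) = s p) = (g (s q) = s q) := congrFun hsame ⟨g, hg⟩
    rw [ht, map_mul]
    rcases hsgn g p with h | h
    · rw [h, (cast h1 h)]
    · rcases hsgn g q with h' | h'
      · rw [cast h1.symm h', h']
      · rw [h, h']
        ring
  -- the stabilizer of `t` is closed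
  let E : IntermediateField K N := IntermediateField.adjoin K {t}
  have hE : (Subgroup.closure S).topologicalClosure ≤ E.fixingSubgroup := by
    apply Subgroup.topologicalClosure_minimal
    · rw [Subgroup.closure_le]
      intro g hg
      have h1 : E ≤ IntermediateField.fixedField (Subgroup.zpowers g) := by
        rw [IntermediateField.adjoin_simple_le_iff]
        rintro ⟨x, hx⟩
        obtain ⟨k, rfl⟩ := hx
        have h2 : g ∈ MulAction.stabilizer (N ≃ₐ[K] N) t := hSt g hg
        exact (MulAction.stabilizer (N ≃ₐ[K] N) t).zpow_mem h2 k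
      have h3 := (IntermediateField.le_iff_le _ _).1 h1
      exact h3 (Subgroup.mem_zpowers g)
    · exact InfiniteGalois.fixingSubgroup_isClosed E
  rw [htop] at hE
  have hfix : ∀ g : N ≃ₐ[K] N, g t = t := by
    intro g
    have h1 : g ∈ E.fixingSubgroup := hE (Subgroup.mem_top g)
    exact h1 ⟨t, IntermediateField.mem_adjoin_simple_self K t⟩
  have hbot : t ∈ (⊥ : IntermediateField K N) := (InfiniteGalois.mem_bot_iff_fixed t).2 hfix
  obtain ⟨a, ha⟩ := IntermediateField.mem_bot.1 hbot
  apply not_sq p.2 q.2 (fun h => hpq (Subtype.ext h))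
  apply hK.sq
  refine ⟨a, (algebraMap K N).injective ?_⟩
  rw [map_mul, ha, ht, map_intCast]
  push_cast
  rw [← hs p, ← hs q]
  ring

/-- square roots in the separable closure -/
lemma exists_sqrt {K : Type} [Field K] [CharZero K] (p : ℕ) :
    ∃ s : SeparableClosure K, s * s = (p : SeparableClosure K) := by
  have : CharZero (SeparableClosure K) :=
    charZero_of_injective_algebraMap (algebraMap K (SeparableClosure K)).injective
  have : IsSepClosed (SeparableClosure K) := inferInstance
  obtain ⟨s, hs⟩ := IsSepClosed.exists_pow_nat_eq (p : SeparableClosure K) 2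
  exact ⟨s, by rw [← sq, hs]⟩

end Pool.Agent.Y720.PAC
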