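import Pool.Agent.Y720.PAC.Step

/-!
# A pseudo algebraically closed field in which no new integers are squares (helper720)
-/

set_option autoImplicit false

namespace Pool.Agent.Y720.PAC

open MvPolynomial

/-- solving all systems in finitely many variables -/
theorem step4 {K : Type} [Field K] (hK : Good K) :
    ∃ (L : Type) (_ : Field L) (φ : K →+* L), Good L ∧
      ∀ (m : ℕ) (I : Ideal (MvPolynomial (Fin m) K)), GI I →
        ∃ x : Fin m → L, ∀ p ∈ I, eval₂ φ x p = 0 := by
  obtain ⟨L, iL, φ, hL, h⟩ := step3 hK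
    (ι := {q : Σ m : ℕ, Ideal (MvPolynomial (Fin m) K) // GI q.2})
    (fun q => Fin q.1.1) (fun q => q.1.2) (fun q => q.2)
  exact ⟨L, iL, φ, hL, fun m I hI => h ⟨⟨m, I⟩, hI⟩⟩

/-- bundled fields -/
structure Fld : Type 1 where
  /-- the field -/
  K : Type
  /-- the structure -/
  [f : Field K]
  good : Good K

attribute [instance] Fld.f

/-- the next field -/
noncomputable def nxt (F : Fld) : Fld :=
  @Fld.mk (step4 F.good).choose (step4 F.good).choose_spec.choose
    (step4 F.good).choose_spec.choose_spec.choose_spec.1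

/-- the embedding -/
noncomputable def emb (F : Fld) : F.K →+* (nxt F).K :=
  (step4 F.good).choose_spec.choose_spec.choose

lemma emb_spec (F : Fld) (m : ℕ) (I : Ideal (MvPolynomial (Fin m) F.K)) (hI : GI I) :
    ∃ x : Fin m → (nxt F).K, ∀ p ∈ I, eval₂ (emb F) x p = 0 :=
  (step4 F.good).choose_spec.choose_spec.choose_spec.2 m I hI

/-- the tower -/
noncomputable def tow (F : Fld) : ℕ → Fld
  | 0 => F
  | n + 1 => nxt (tow F n)

/-- one step of the tower -/
noncomputable def st (F : Fld) (n : ℕ) : (tow F n).K →+* (tow F (n + 1)).K := emb (tow F n)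

lemma st_spec (F : Fld) (n m : ℕ) (I : Ideal (MvPolynomial (Fin m) (tow F n).K)) (hI : GI I) :
    ∃ x : Fin m → (tow F (n + 1)).K, ∀ p ∈ I, eval₂ (st F n) x p = 0 :=
  emb_spec (tow F n) m I hI

/-- the maps of the tower -/
noncomputable def tr (F : Fld) (i j : ℕ) (h : i ≤ j) : (tow F i).K →+* (tow F j).K :=
  Nat.leRec (motive := fun j _ => (tow F i).K →+* (tow F j).K) (RingHom.id _)
    (fun j _ g => (st F j).comp g) h

lemma tr_self (F : Fld) (i : ℕ) (h : i ≤ i) : tr F i i h = RingHom.id _ := by
  rw [tr, Nat.leRec_self]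

lemma tr_succ (F : Fld) (i j : ℕ) (h : i ≤ j) (h' : i ≤ j + 1) :
    tr F i (j + 1) h' = (st F j).comp (tr F i j h) := by
  rw [tr, Nat.leRec_succ]
  rfl

lemma tr_comp (F : Fld) (i j k : ℕ) (hij : i ≤ j) (hjk : j ≤ k) (hik : i ≤ k) :
    (tr F j k hjk).comp (tr F i j hij) = tr F i k hik := by
  induction k, hjk using Nat.le_induction with
  | base => rw [tr_self, RingHom.id_comp]
  | succ k hjk ih =>
    rw [tr_succ F j k hjk, tr_succ F i k (hij.trans hjk), RingHom.comp_assoc, ih]

instance (F : Fld) : DirectedSystem (fun n => (tow F n).K) (fun i j h => tr F i j h) where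
  map_self i x := by rw [tr_self]; rfl
  map_map k j i hij hjk x := by
    rw [← tr_comp F i j k hij hjk (hij.trans hjk)]
    rfl

/-- the limit -/
noncomputable abbrev Lim (F : Fld) : Type :=
  DirectLimit (fun n => (tow F n).K) (fun i j h => tr F i j h)

noncomputable instance (F : Fld) : Field (Lim F) := inferInstance

/-- the maps to the limit -/
noncomputable def inc (F : Fld) (n : ℕ) : (tow F n).K →+* Lim F :=
  DirectLimit.Ring.of (fun n => (tow F n).K) (fun i j h => tr F i j h) n

lemma inc_tr (F : Fld) (i j : ℕ) (h : i ≤ j) : (inc F j).comp (tr F i j h) = inc F i := by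
  ext x
  exact DirectLimit.Ring.of_f _ _

lemma exists_inc (F : Fld) (x : Lim F) : ∃ n y, inc F n y = x := by
  induction x using DirectLimit.induction with
  | _ i x => exact ⟨i, x, rfl⟩

lemma exists_inc' (F : Fld) (x : Lim F) (n : ℕ) : ∃ m, n ≤ m ∧ ∃ y, inc F m y = x := by
  obtain ⟨k, y, rfl⟩ := exists_inc F x
  refine ⟨max n k, le_max_left _ _, tr F k _ (le_max_right _ _) y, ?_⟩
  rw [← inc_tr F k _ (le_max_right _ _)]
  rfl

/-- polynomials over the limit come from the tower -/
lemma exists_poly (F : Fld) {σ : Type} (p : MvPolynomial σ (Lim F)) :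
    ∃ n, ∀ k, n ≤ k → ∃ q, map (inc F k) q = p := by
  induction p using MvPolynomial.induction_on with
  | C a =>
    obtain ⟨n, y, rfl⟩ := exists_inc F a
    refine ⟨n, fun k hk => ⟨C (tr F n k hk y), ?_⟩⟩
    rw [map_C]
    congr 1
    rw [← inc_tr F n k hk]
    rfl
  | add p q hp hq =>
    obtain ⟨n, hn⟩ := hp
    obtain ⟨m, hm⟩ := hq
    refine ⟨max n m, fun k hk => ?_⟩
    obtain ⟨p', rfl⟩ := hn k (le_trans (le_max_left _ _) hk)
    obtain ⟨q', rfl⟩ := hm k (le_trans (le_max_right _ _) hk)
    exact ⟨p' + q', map_add _ _ _⟩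
  | mul_X p i hp =>
    obtain ⟨n, hn⟩ := hp
    refine ⟨n, fun k hk => ?_⟩
    obtain ⟨p', rfl⟩ := hn k hk
    exact ⟨p' * X i, by rw [map_mul, map_X]⟩

lemma exists_ideal (F : Fld) {σ : Type} [Finite σ] (I : Ideal (MvPolynomial σ (Lim F))) :
    ∃ n, ∃ I' : Ideal (MvPolynomial σ (tow F n).K), I'.map (map (inc F n)) = I := by
  classical
  obtain ⟨S, rfl⟩ := (inferInstance : IsNoetherianRing (MvPolynomial σ (Lim F))).noetherian I
  choose n hn using fun p : MvPolynomial σ (Lim F) => exists_poly F p
  let N := S.sup n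
  choose! q hq using fun p : MvPolynomial σ (Lim F) => hn p N
  refine ⟨N, Ideal.span (q '' S), ?_⟩
  rw [Ideal.map_span, ← Set.image_comp]
  have : (map (inc F N) ∘ q) '' (S : Set (MvPolynomial σ (Lim F))) = S := by
    have h : Set.EqOn (map (inc F N) ∘ q) id (S : Set (MvPolynomial σ (Lim F))) := by
      intro p hp
      exact hq p (Finset.le_sup (f := n) hp)
    rw [h.image_eq, Set.image_id]
  rw [this]

/-- a field over which every absolutely prime system has a zero -/
def SolvesAll (K : Type) [Field K] : Prop :=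
  ∀ (m : ℕ) (I : Ideal (MvPolynomial (Fin m) K)), GI I → ∃ x : Fin m → K, ∀ p ∈ I, eval x p = 0

theorem lim_good (F : Fld) : Good (Lim F) := by
  refine ⟨?_, ?_⟩
  · have := (tow F 0).good.char
    exact charZero_of_injective_ringHom (inc F 0).injective
  · rintro n ⟨r, hr⟩
    obtain ⟨k, y, rfl⟩ := exists_inc F r
    apply (tow F k).good.sq
    refine ⟨y, (inc F k).injective ?_⟩
    rw [map_intCast, hr, map_mul]

theorem lim_solves (F : Fld) : SolvesAll (Lim F) := by
  intro m I hI
  obtain ⟨n, I', rfl⟩ := exists_ideal F I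
  have hI' : GI I' := by
    intro M _ φ
    obtain ⟨P, _, φ', ψ', h⟩ := common φ (inc F n)
    have h1 := hI P ψ'
    rw [Ideal.map_map] at h1
    have h2 : (map ψ' : MvPolynomial (Fin m) (Lim F) →+* _).comp (map (inc F n)) =
        (map φ').comp (map φ) := by
      ext x
      · have := RingHom.congr_fun h x
        simp only [RingHom.coe_comp, Function.comp_apply] at this
        simp [this]
      · simp
    rw [h2, ← Ideal.map_map] at h1
    rw [← comap_map φ' (I'.map (map φ))]
    exact Ideal.IsPrime.comap _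
  obtain ⟨x, hx⟩ := st_spec F n m I' hI'
  let x' : Fin m → Lim F := fun i => inc F (n + 1) (x i)
  refine ⟨x', fun p hp => ?_⟩
  have key : ∀ p ∈ I', eval x' (map (inc F n) p) = 0 := by
    intro p hp
    have h1 := congrArg (inc F (n + 1)) (hx p hp)
    rw [map_zero, hom_eval₂] at h1
    rw [eval_map]
    have h2 : (inc F (n + 1)).comp (st F n) = inc F n := by
      have := inc_tr F n (n + 1) (Nat.le_succ n)
      rwa [tr_succ F n n le_rfl, tr_self, RingHom.comp_id] at this
    rw [← h2]
    exact h1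
  have h3 : I'.map (map (inc F n)) ≤ RingHom.ker (eval x') := by
    rw [Ideal.map_le_iff_le_comap]
    intro p hp
    exact key p hp
  exact h3 hp

/-- **a pseudo algebraically closed field** -/
theorem exists_field : ∃ (K : Type) (_ : Field K), Good K ∧ SolvesAll K := by
  have hQ : Good ℚ := by
    refine ⟨inferInstance, fun n hn => ?_⟩
    exact Rat.isSquare_intCast_iff.1 hn
  exact ⟨Lim ⟨ℚ, hQ⟩, inferInstance, lim_good _, lim_solves _⟩

end Pool.Agent.Y720.PAC
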