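import Mathlib

/-!
# Systems of polynomial equations which are prime over all extensions (helper720)
-/

set_option autoImplicit false

namespace Pool.Agent.Y720.PAC

open MvPolynomial

section cf

variable {σ : Type*} {L M : Type*} [CommRing L] [CommRing M] [Algebra L M]

/-- applying a linear map to all coefficients -/
noncomputable def cf (φ : M →ₗ[L] L) (p : MvPolynomial σ M) : MvPolynomial σ L :=
  ∑ m ∈ p.support, monomial m (φ (coeff m p))

lemma coeff_cf (φ : M →ₗ[L] L) (p : MvPolynomial σ M) (m : σ →₀ ℕ) :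
    coeff m (cf φ p) = φ (coeff m p) := by
  classical
  rw [cf, coeff_sum]
  simp only [coeff_monomial]
  rw [Finset.sum_ite_eq']
  split_ifs with h
  · rfl
  · rw [notMem_support_iff.1 h, map_zero]

lemma cf_add (φ : M →ₗ[L] L) (p q : MvPolynomial σ M) : cf φ (p + q) = cf φ p + cf φ q := by
  ext m
  simp [coeff_cf]

lemma cf_sub (φ : M →ₗ[L] L) (p q : MvPolynomial σ M) : cf φ (p - q) = cf φ p - cf φ q := by
  ext m
  simp [coeff_cf]

lemma cf_zero (φ : M →ₗ[L] L) : cf φ (0 : MvPolynomial σ M) = 0 := by
  ext m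
  simp [coeff_cf]

/-- linearity over the polynomials with coefficients in `L` -/
lemma cf_mul (φ : M →ₗ[L] L) (p : MvPolynomial σ M) (s : MvPolynomial σ L) :
    cf φ (p * map (algebraMap L M) s) = cf φ p * s := by
  classical
  ext m
  rw [coeff_cf, coeff_mul, coeff_mul, map_sum]
  refine Finset.sum_congr rfl fun x _ => ?_
  rw [coeff_map, coeff_cf, mul_comm (coeff x.1 p), ← Algebra.smul_def, map_smul, smul_eq_mul,
    mul_comm]

lemma cf_C_mul_map (φ : M →ₗ[L] L) (c : M) (s : MvPolynomial σ L) :
    cf φ (C c * map (algebraMap L M) s) = C (φ c) * s := by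
  rw [cf_mul]
  congr 1
  classical
  ext m
  rw [coeff_cf, coeff_C, coeff_C]
  split_ifs <;> simp

lemma cf_map (φ : M →ₗ[L] L) (s : MvPolynomial σ L) :
    cf φ (map (algebraMap L M) s) = C (φ 1) * s := by
  have := cf_C_mul_map φ 1 s
  rwa [C_1, one_mul] at this

/-- the extension of an ideal is mapped into the ideal -/
lemma cf_mem (φ : M →ₗ[L] L) (I : Ideal (MvPolynomial σ L)) {p : MvPolynomial σ M}
    (hp : p ∈ I.map (map (algebraMap L M))) : cf φ p ∈ I := by
  refine Submodule.span_induction (p := fun q _ => cf φ q ∈ I) ?_ ?_ ?_ ?_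
    (show p ∈ Ideal.span (map (algebraMap L M) '' (I : Set _)) from hp)
  · rintro _ ⟨s, hs, rfl⟩
    rw [cf_map]
    exact I.mul_mem_left _ hs
  · rw [cf_zero]
    exact I.zero_mem
  · intro x y _ _ hx hy
    rw [cf_add]
    exact I.add_mem hx hy
  · intro a x hx _
    -- need the statement for all multiples
    revert a
    refine Submodule.span_induction (p := fun q _ => ∀ a, cf φ (a • q) ∈ I) ?_ ?_ ?_ ?_ hx
    · rintro _ ⟨s, hs, rfl⟩ a
      rw [smul_eq_mul, cf_mul]
      exact I.mul_mem_left _ hs
    · intro a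
      rw [smul_zero, cf_zero]
      exact I.zero_mem
    · intro x y _ _ hx hy a
      rw [smul_add, cf_add]
      exact I.add_mem (hx a) (hy a)
    · intro b x _ hx a
      rw [smul_smul]
      exact hx _

end cf

/-- the ideal generated by the image of `I` is prime for all homomorphisms into fields -/
def GI {K : Type} [Field K] {σ : Type} (I : Ideal (MvPolynomial σ K)) : Prop :=
  ∀ (M : Type) [Field M] (φ : K →+* M), (I.map (map φ)).IsPrime

/-- the ideal over `L` is the contraction of its extension -/
lemma comap_map {L M : Type} [Field L] [Field M] (ψ : L →+* M) {σ : Type}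
    (I : Ideal (MvPolynomial σ L)) : (I.map (map ψ)).comap (map ψ) = I := by
  let _ : Algebra L M := ψ.toAlgebra
  have hψ : algebraMap L M = ψ := rfl
  apply le_antisymm
  · intro p hp
    obtain ⟨φ, hφ⟩ := (Module.Projective.exists_dual_ne_zero L (one_ne_zero (α := M)))
    have h1 : cf φ (map (algebraMap L M) p) ∈ I := cf_mem φ I hp
    rw [cf_map] at h1
    have h2 := I.mul_mem_left (C (φ 1)⁻¹) h1
    rwa [← mul_assoc, ← C_mul, inv_mul_cancel₀ hφ, C_1, one_mul] at h2
  · exact Ideal.le_comap_map

/-- squares of integers -/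
structure Good (K : Type) [Field K] : Prop where
  char : CharZero K
  sq : ∀ n : ℤ, IsSquare (n : K) → IsSquare n

/-- two fields over a common subfield have a common extension -/
lemma common {K M N : Type} [Field K] [Field M] [Field N] (φ : K →+* M) (ψ : K →+* N) :
    ∃ (P : Type) (_ : Field P) (φ' : M →+* P) (ψ' : N →+* P), φ'.comp φ = ψ'.comp ψ := by
  let _ := φ.toAlgebra
  let _ := ψ.toAlgebra
  let R := TensorProduct K M N
  have : Nontrivial R := inferInstance
  obtain ⟨m, hm⟩ := Ideal.exists_maximal R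
  refine ⟨R ⧸ m, Ideal.Quotient.field m,
    (Ideal.Quotient.mk m).comp (Algebra.TensorProduct.includeLeft (R := K) (S := K)).toRingHom,
    (Ideal.Quotient.mk m).comp (Algebra.TensorProduct.includeRight (R := K)).toRingHom, ?_⟩
  ext x
  simp only [RingHom.coe_comp, Function.comp_apply]
  congr 1
  change (φ x) ⊗ₜ[K] (1 : N) = (1 : M) ⊗ₜ[K] (ψ x)
  have h1 : φ x = x • (1 : M) := by rw [Algebra.smul_def, mul_one]; rfl
  have h2 : ψ x = x • (1 : N) := by rw [Algebra.smul_def, mul_one]; rfl
  rw [h1, h2, TensorProduct.smul_tmul]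

end Pool.Agent.Y720.PAC
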