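import Pool.Agent.Y720.PAC.Limit

/-!
# Rational points of geometrically integral schemes (helper720)
-/

set_option autoImplicit false

open AlgebraicGeometry CategoryTheory CategoryTheory.Limits TensorProduct

namespace Pool.Agent.Y720.PAC

/-- if all base changes of the quotient are domains then all extensions of the ideal are prime -/
lemma gi_of_tensor {K : Type} [Field K] {A : Type} [CommRing A] [Algebra K A] {m : ℕ}
    (f : MvPolynomial (Fin m) K →ₐ[K] A) (hf : Function.Surjective f)
    (h : ∀ (M : Type) [Field M] [Algebra K M], IsDomain (M ⊗[K] A)) :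
    GI (RingHom.ker f.toRingHom) := by
  intro M _ φ
  let _ : Algebra K M := φ.toAlgebra
  have hφ : algebraMap K M = φ := rfl
  have := h M
  let e := MvPolynomial.algebraTensorAlgEquiv (σ := Fin m) K M
  let g : MvPolynomial (Fin m) M →ₐ[M] M ⊗[K] A :=
    (Algebra.TensorProduct.map (AlgHom.id M M) f).comp e.symm.toAlgHom
  have he : ∀ p : MvPolynomial (Fin m) K, e ((1 : M) ⊗ₜ[K] p) = MvPolynomial.map φ p := by
    intro p
    change MvPolynomial.algebraTensorAlgEquiv (σ := Fin m) K M ((1 : M) ⊗ₜ[K] p) = _
    rw [MvPolynomial.algebraTensorAlgEquiv_tmul, one_smul, hφ]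
  have hker : RingHom.ker g.toRingHom = (RingHom.ker f.toRingHom).map (MvPolynomial.map φ) := by
    apply le_antisymm
    · intro p hp
      have h2 : e.symm p ∈ RingHom.ker (Algebra.TensorProduct.map (AlgHom.id K M) f) := hp
      rw [Algebra.TensorProduct.lTensor_ker (A := M) f hf] at h2
      have hle : Ideal.map (Algebra.TensorProduct.includeRight : _ →ₐ[K] M ⊗[K] _)
          (RingHom.ker f) ≤ Ideal.comap (e : _ →+* MvPolynomial (Fin m) M)
            ((RingHom.ker f.toRingHom).map (MvPolynomial.map φ)) := by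
        rw [Ideal.map_le_iff_le_comap]
        intro q hq
        change e ((1 : M) ⊗ₜ[K] q) ∈ (RingHom.ker f.toRingHom).map (MvPolynomial.map φ)
        rw [he]
        exact Ideal.mem_map_of_mem _ hq
      have h3 : e (e.symm p) ∈ (RingHom.ker f.toRingHom).map (MvPolynomial.map φ) := hle h2
      rwa [AlgEquiv.apply_symm_apply] at h3
    · rw [Ideal.map_le_iff_le_comap]
      intro p hp
      have hp' : f p = 0 := hp
      have h5 : e.symm (MvPolynomial.map φ p) = (1 : M) ⊗ₜ[K] p := by
        rw [AlgEquiv.symm_apply_eq, he]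
      change Algebra.TensorProduct.map (AlgHom.id M M) f (e.symm (MvPolynomial.map φ p)) = 0
      rw [h5, Algebra.TensorProduct.map_tmul, hp', TensorProduct.tmul_zero]
  rw [← hker]
  exact RingHom.ker_isPrime _

/-- the ring of an affine open subscheme -/
lemma tensor_domain {K : Type} [Field K] {X : Scheme.{0}} (f : X ⟶ Spec (.of K))
    [GeometricallyIntegral f] {A : Type} [CommRing A] [Nontrivial A] [Algebra K A]
    (i : Spec (.of A) ⟶ X) [IsOpenImmersion i]
    (hi : i ≫ f = Spec.map (CommRingCat.ofHom (algebraMap K A)))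
    (M : Type) [Field M] [Algebra K M] : IsDomain (M ⊗[K] A) := by
  let y : Spec (.of M) ⟶ Spec (.of K) := Spec.map (CommRingCat.ofHom (algebraMap K M))
  have h1 : IsIntegral (pullback y f) :=
    pullback_of_geometrically' (GeometricallyIntegral.geometrically_isIntegral) M y
  let j : pullback y (i ≫ f) ⟶ pullback y f :=
    pullback.map _ _ _ _ (𝟙 _) i (𝟙 _) (by simp) (by simp)
  have hj : IsOpenImmersion j := inferInstance
  let α : Spec (.of A) ⟶ Spec (.of K) := Spec.map (CommRingCat.ofHom (algebraMap K A))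
  have hα : i ≫ f = α := hi
  have h2 : Nonempty ↥(pullback y α) := by
    have : Nontrivial (M ⊗[K] A) := inferInstance
    have h3 : Nonempty (Spec (.of (M ⊗[K] A))) := inferInstance
    obtain ⟨p⟩ := h3
    exact ⟨(pullbackSpecIso K M A).inv p⟩
  have h4 : IsIntegral (pullback y α) := by
    rw [← hα] at h2 ⊢
    exact isIntegral_of_isOpenImmersion j
  have h5 : IsIntegral (Spec (.of (M ⊗[K] A))) :=
    IsIntegral.of_isIso (pullbackSpecIso K M A).hom
  exact (affine_isIntegral_iff (.of (M ⊗[K] A))).1 h5

/-- **geometrically integral schemes of finite type have rational points** -/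
theorem exists_point {K : Type} [Field K] (hK : SolvesAll K) (X : Scheme.{0})
    (f : X ⟶ Spec (.of K)) [GeometricallyIntegral f] [LocallyOfFiniteType f] :
    ∃ s : Spec (.of K) ⟶ X, s ≫ f = 𝟙 _ := by
  have hX : IsIntegral X := GeometricallyIntegral.isIntegral_of_subsingleton f
  obtain ⟨x⟩ : Nonempty X := inferInstance
  obtain ⟨_, ⟨U, hU, rfl⟩, hxU, -⟩ :=
    X.isBasis_affineOpens.exists_subset_of_mem_open (Set.mem_univ x) isOpen_univ
  let A := Γ(X, U)
  let i : Spec (.of A) ⟶ X := hU.fromSpec
  have hi : IsOpenImmersion i := hU.isOpenImmersion_fromSpec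
  have : Nonempty U := ⟨⟨x, hxU⟩⟩
  have hA : Nontrivial A := inferInstanceAs (Nontrivial Γ(X, U))
  let α : K →+* A := (Spec.preimage (i ≫ f)).hom
  let _ : Algebra K A := α.toAlgebra
  have hif : i ≫ f = Spec.map (CommRingCat.ofHom (algebraMap K A)) := by
    conv_lhs => rw [← Spec.map_preimage (i ≫ f)]
    rfl
  have hft : Algebra.FiniteType K A := by
    have h1 : LocallyOfFiniteType (Spec.map (CommRingCat.ofHom (algebraMap K A))) := by
      rw [← hif]
      infer_instance
    exact (HasRingHomProperty.Spec_iff (P := @LocallyOfFiniteType)).1 h1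
  obtain ⟨m, g, hg⟩ := Algebra.FiniteType.iff_quotient_mvPolynomial''.1 hft
  obtain ⟨z, hz⟩ := hK m (RingHom.ker g.toRingHom)
    (gi_of_tensor g hg fun M _ _ => tensor_domain f i hif M)
  -- the homomorphism `A → K`
  have hle : RingHom.ker g.toRingHom ≤ RingHom.ker (MvPolynomial.aeval z).toRingHom := by
    intro p hp
    exact hz p hp
  let h : A →ₐ[K] K := AlgHom.liftOfSurjective g hg (MvPolynomial.aeval z) hle
  refine ⟨Spec.map (CommRingCat.ofHom h.toRingHom) ≫ i, ?_⟩
  rw [Category.assoc, hif, ← Spec.map_comp, ← CommRingCat.ofHom_comp]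
  have : h.toRingHom.comp (algebraMap K A) = RingHom.id K := h.comp_algebraMap
  rw [this]
  exact Spec.map_id _

end Pool.Agent.Y720.PAC
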