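import Pool.Agent.Y720.PAC.Poly

/-!
# Solving one, and then all systems in an extension (helper720)
-/

set_option autoImplicit false

namespace Pool.Agent.Y720.PAC

open MvPolynomial

lemma exists_functional {L M : Type} [Field L] [Field M] [Algebra L M] {c : M}
    (hc : ∀ a : L, algebraMap L M a ≠ c) : ∃ f : M →ₗ[L] L, f 1 = 0 ∧ f c ≠ 0 := by
  have h : c ∉ Submodule.span L {(1 : M)} := by
    intro h
    obtain ⟨a, ha⟩ := Submodule.mem_span_singleton.1 h
    apply hc a
    rw [← ha, Algebra.smul_def, mul_one]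
  obtain ⟨f, hf, hf'⟩ := Submodule.exists_dual_map_eq_bot_of_notMem h inferInstance
  refine ⟨f, ?_, hf⟩
  have h1 : f 1 ∈ Submodule.map f (Submodule.span L {(1 : M)}) :=
    ⟨1, Submodule.mem_span_singleton_self _, rfl⟩
  rw [hf'] at h1
  simpa using h1

/-- solving one system -/
theorem step1 {K L : Type} [Field K] [Field L] (hL : Good L) (φ : K →+* L) {σ : Type}
    {I : Ideal (MvPolynomial σ K)} (hI : GI I) :
    ∃ (P : Type) (_ : Field P) (χ : L →+* P) (x : σ → P), Good P ∧
      ∀ p ∈ I, eval₂ (χ.comp φ) x p = 0 := by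
  set J : Ideal (MvPolynomial σ L) := I.map (map φ) with hJ
  have hJp : J.IsPrime := hI L φ
  let B := MvPolynomial σ L ⧸ J
  have : IsDomain B := Ideal.Quotient.isDomain J
  let P := FractionRing B
  let χ : L →+* P := (algebraMap B P).comp ((Ideal.Quotient.mk J).comp C)
  have hinj : Function.Injective (algebraMap B P) := IsFractionRing.injective B P
  refine ⟨P, inferInstance, χ, fun i => algebraMap B P (Ideal.Quotient.mk J (X i)), ⟨?_, ?_⟩, ?_⟩
  · have := hL.char
    exact charZero_of_injective_ringHom χ.injective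
  · intro n hn
    by_contra hns
    obtain ⟨r, hr⟩ := hn
    obtain ⟨a, b, hb, rfl⟩ := IsFractionRing.div_surjective (A := B) r
    obtain ⟨u, rfl⟩ := Ideal.Quotient.mk_surjective a
    obtain ⟨v, rfl⟩ := Ideal.Quotient.mk_surjective b
    have hv : v ∉ J := by
      intro h
      exact nonZeroDivisors.ne_zero hb (Ideal.Quotient.eq_zero_iff_mem.2 h)
    have hv' : algebraMap B P (Ideal.Quotient.mk J v) ≠ 0 := by
      intro h
      rw [map_eq_zero_iff _ hinj] at h
      exact hv (Ideal.Quotient.eq_zero_iff_mem.1 h)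
    have h1 : algebraMap B P (Ideal.Quotient.mk J (u * u - n * (v * v))) = 0 := by
      rw [div_mul_div_comm, eq_div_iff (mul_ne_zero hv' hv')] at hr
      simp only [map_sub, map_mul, map_intCast]
      linear_combination -hr
    rw [map_eq_zero_iff _ hinj] at h1
    have h2 : u * u - n * (v * v) ∈ J := Ideal.Quotient.eq_zero_iff_mem.1 h1
    -- a square root in the algebraic closure
    let M := AlgebraicClosure L
    obtain ⟨s, hs⟩ := IsAlgClosed.exists_pow_nat_eq (n : M) (n := 2) (by norm_num)
    have hsL : ∀ a : L, algebraMap L M a ≠ s := by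
      intro a ha
      apply hns
      apply hL.sq
      refine ⟨a, ?_⟩
      apply (algebraMap L M).injective
      rw [map_mul, ha, map_intCast, ← hs, sq]
    have hJM : (J.map (map (algebraMap L M))).IsPrime := by
      rw [hJ, Ideal.map_map]
      have : (map (algebraMap L M) : MvPolynomial σ L →+* _).comp (map φ) =
          map ((algebraMap L M).comp φ) := by
        ext <;> simp
      rw [this]
      exact hI M _
    have h3 : (map (algebraMap L M) u - C s * map (algebraMap L M) v) *
        (map (algebraMap L M) u - C (-s) * map (algebraMap L M) v) ∈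
          J.map (map (algebraMap L M)) := by
      have h4 := Ideal.mem_map_of_mem (map (algebraMap L M)) h2
      convert h4 using 1
      simp only [map_sub, map_mul, map_intCast]
      have h5 : (C s * C s : MvPolynomial σ M) = (n : MvPolynomial σ M) := by
        rw [← C_mul, ← sq, hs, map_intCast]
      rw [C_neg]
      linear_combination (-(map (algebraMap L M) v * map (algebraMap L M) v)) * h5
    have key : ∀ c : M, (∀ a : L, algebraMap L M a ≠ c) →
        map (algebraMap L M) u - C c * map (algebraMap L M) v ∈ J.map (map (algebraMap L M)) →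
        False := by
      intro c hc h
      obtain ⟨f, hf1, hf2⟩ := exists_functional hc
      have h6 := cf_mem f J h
      rw [cf_sub, cf_map, cf_C_mul_map, hf1, C_0, zero_mul, zero_sub] at h6
      have h7 := J.mul_mem_left (C (-(f c)⁻¹)) h6
      apply hv
      convert h7 using 1
      rw [C_neg, neg_mul_neg, ← mul_assoc, ← C_mul, inv_mul_cancel₀ hf2, C_1, one_mul]
    rcases hJM.mem_or_mem h3 with h | h
    · exact key s hsL h
    · refine key (-s) ?_ h
      intro a ha
      apply hsL (-a)
      rw [map_neg, ha, neg_neg]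
  · intro p hp
    have h1 : Ideal.Quotient.mk J (map φ p) = 0 :=
      Ideal.Quotient.eq_zero_iff_mem.2 (Ideal.mem_map_of_mem _ hp)
    have h2 : eval₂ (χ.comp φ) (fun i => algebraMap B P (Ideal.Quotient.mk J (X i))) p =
        algebraMap B P (Ideal.Quotient.mk J (map φ p)) := by
      have h3 : (eval₂Hom (χ.comp φ) (fun i => algebraMap B P (Ideal.Quotient.mk J (X i)))) =
          (((algebraMap B P).comp (Ideal.Quotient.mk J)).comp (map φ)) := by
        ext <;> simp [χ]
      exact RingHom.congr_fun h3 p
    rw [h2, h1, map_zero]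

/-- solving finitely many systems -/
theorem step2 {K : Type} [Field K] (hK : Good K) {ι : Type} (σ : ι → Type)
    (I : ∀ i, Ideal (MvPolynomial (σ i) K)) (hI : ∀ i, GI (I i)) (s : Finset ι) :
    ∃ (L : Type) (_ : Field L) (φ : K →+* L), Good L ∧
      ∀ i ∈ s, ∃ x : σ i → L, ∀ p ∈ I i, eval₂ φ x p = 0 := by
  classical
  induction s using Finset.induction_on with
  | empty => exact ⟨K, inferInstance, RingHom.id K, hK, by simp⟩
  | insert i s _ ih =>
    obtain ⟨L, _, φ, hL, h⟩ := ih
    obtain ⟨P, _, χ, x, hP, hx⟩ := step1 hL φ (hI i)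
    refine ⟨P, inferInstance, χ.comp φ, hP, fun j hj => ?_⟩
    rcases Finset.mem_insert.1 hj with rfl | hj
    · exact ⟨x, hx⟩
    · obtain ⟨y, hy⟩ := h j hj
      refine ⟨fun k => χ (y k), fun p hp => ?_⟩
      have h1 := congrArg χ (hy p hp)
      rw [map_zero, hom_eval₂] at h1
      exact h1

/-- solving all systems -/
theorem step3 {K : Type} [Field K] (hK : Good K) {ι : Type} (σ : ι → Type)
    (I : ∀ i, Ideal (MvPolynomial (σ i) K)) (hI : ∀ i, GI (I i)) :
    ∃ (L : Type) (_ : Field L) (φ : K →+* L), Good L ∧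
      ∀ i, ∃ x : σ i → L, ∀ p ∈ I i, eval₂ φ x p = 0 := by
  classical
  choose L iL φ hL h using fun s => step2 hK σ I hI s
  let R := ∀ s : Finset ι, L s
  -- functions vanishing on large sets
  let Z : Ideal R :=
    { carrier := {f | ∃ s₀, ∀ s, s₀ ⊆ s → f s = 0}
      zero_mem' := ⟨∅, fun s _ => rfl⟩
      add_mem' := by
        rintro f g ⟨s, hs⟩ ⟨t, ht⟩
        refine ⟨s ∪ t, fun u hu => ?_⟩
        rw [Pi.add_apply, hs u (Finset.union_subset_left hu), ht u (Finset.union_subset_right hu),
          add_zero]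
      smul_mem' := by
        rintro c f ⟨s, hs⟩
        refine ⟨s, fun u hu => ?_⟩
        rw [smul_eq_mul, Pi.mul_apply, hs u hu, mul_zero] }
  have hZ : Z ≠ ⊤ := by
    rw [Ideal.ne_top_iff_one]
    rintro ⟨s, hs⟩
    have := hs s (Finset.Subset.refl s)
    exact one_ne_zero this
  obtain ⟨m, hm, hZm⟩ := Ideal.exists_le_maximal Z hZ
  let F := R ⧸ m
  let _ : Field F := Ideal.Quotient.field m
  let mk : R →+* F := Ideal.Quotient.mk m
  let Φ : K →+* R := RingHom.pi fun s => φ s
  have hunit : ∀ r : R, (∀ s, r s ≠ 0) → mk r ≠ 0 := by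
    intro r hr h0
    have h1 : r ∈ m := Ideal.Quotient.eq_zero_iff_mem.1 h0
    apply hm.ne_top
    rw [Ideal.eq_top_iff_one]
    have h2 : r * (fun s => (r s)⁻¹ : R) ∈ m := m.mul_mem_right _ h1
    have h3 : r * (fun s => (r s)⁻¹ : R) = 1 := by
      funext s
      exact mul_inv_cancel₀ (hr s)
    rwa [h3] at h2
  refine ⟨F, inferInstance, mk.comp Φ, ⟨?_, ?_⟩, ?_⟩
  · have := hK.char
    exact charZero_of_injective_ringHom (mk.comp Φ).injective
  · rintro n ⟨r, hr⟩
    by_contra hns
    obtain ⟨r, rfl⟩ := Ideal.Quotient.mk_surjective r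
    have h1 : mk ((n : R) - r * r) = 0 := by
      rw [map_sub, map_mul, map_intCast]
      exact sub_eq_zero.2 hr
    refine hunit _ (fun s h0 => ?_) h1
    apply hns
    apply (hL s).sq
    refine ⟨r s, ?_⟩
    have h2 : ((n : R) - r * r) s = (n : L s) - r s * r s := rfl
    rw [h2] at h0
    exact sub_eq_zero.1 h0
  · intro i
    choose! x hx using fun s => h s i
    refine ⟨fun k => mk fun s => x s k, fun p hp => ?_⟩
    have h1 : eval₂ (mk.comp Φ) (fun k => mk fun s => x s k) p =
        mk (eval₂ Φ (fun k s => x s k) p) := by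
      rw [hom_eval₂]
    rw [h1]
    apply Ideal.Quotient.eq_zero_iff_mem.2
    apply hZm
    refine ⟨{i}, fun s hs => ?_⟩
    have h2 : (eval₂ Φ (fun k s => x s k) p) s = eval₂ (φ s) (x s) p := by
      have := hom_eval₂ p Φ (Pi.evalRingHom _ s) (fun k s => x s k)
      exact this
    rw [h2]
    exact hx s (hs (Finset.mem_singleton_self i)) p hp

end Pool.Agent.Y720.PAC
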